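import Mathlib

set_option autoImplicit false

/-!
# Point sets in which all `k`-point hulls are large
-/

namespace Pool.Agent.Results.MP_6b0309_co.LargeHulls

open MeasureTheory Set
open scoped Pointwise ENNReal

/-- The rectangle `[0, d] × [0, 1/d]`. -/
def rect (d : ℝ) : Set (ℝ × ℝ) := Icc 0 d ×ˢ Icc 0 (1 / d)

/-- The smallest area of the convex hull of a `k`-element subset of `P`. -/
noncomputable def minHull (k : ℕ) (P : Finset (ℝ × ℝ)) : ℝ≥0∞ :=
  ⨅ T ∈ P.powersetCard k, volume (convexHull ℝ (T : Set (ℝ × ℝ)))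

/-- `Δ'_k(n)`: the supremum of `minHull k P` over all `n`-point sets `P` in some rectangle
`[0, d] × [0, 1/d]`, `0 < d ≤ 1`. -/
noncomputable def Delta (k n : ℕ) : ℝ≥0∞ :=
  ⨆ (d : ℝ) (P : Finset (ℝ × ℝ)) (_ : 0 < d ∧ d ≤ 1 ∧ (P : Set (ℝ × ℝ)) ⊆ rect d ∧ P.card = n),
    minHull k P

lemma one_dim {J : Set ℝ} (hJ : IsCompact J) (hc : Convex ℝ J) {h : ℝ} (hh : 0 ≤ h) :
    volume (J + Icc 0 h) ≤ volume J + ENNReal.ofReal h := by
  rcases J.eq_empty_or_nonempty with rfl | hne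
  · simp
  · have hconn : IsConnected J := ⟨hne, hc.isPreconnected⟩
    have hJe := eq_Icc_of_connected_compact hconn hJ
    set a := sInf J
    set b := sSup J
    have hab : a ≤ b := by
      rw [← nonempty_Icc, ← hJe]; exact hne
    have hsub : J + Icc 0 h ⊆ Icc a (b + h) := by
      rw [hJe]
      rintro _ ⟨x, hx, y, hy, rfl⟩
      simp only [mem_Icc] at hx hy ⊢
      constructor <;> linarith
    calc volume (J + Icc 0 h) ≤ volume (Icc a (b + h)) := measure_mono hsub
      _ = ENNReal.ofReal ((b - a) + h) := by rw [Real.volume_Icc]; congr 1; ring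
      _ = ENNReal.ofReal (b - a) + ENNReal.ofReal h := ENNReal.ofReal_add (by linarith) hh
      _ = volume J + ENNReal.ofReal h := by rw [hJe, Real.volume_Icc]

lemma vert {K : Set (ℝ × ℝ)} (hK : IsCompact K) (hc : Convex ℝ K) {h W : ℝ} (hh : 0 ≤ h)
    (hW : ∀ p ∈ K, p.1 ∈ Icc 0 W) :
    volume (K + ({0} ×ˢ Icc 0 h : Set (ℝ × ℝ))) ≤
      volume K + ENNReal.ofReal h * ENNReal.ofReal W := by
  have hcomp : IsCompact (K + ({0} ×ˢ Icc 0 h : Set (ℝ × ℝ))) :=
    hK.add (isCompact_singleton.prod isCompact_Icc)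
  have hsec : ∀ x : ℝ, Prod.mk x ⁻¹' (K + ({0} ×ˢ Icc 0 h : Set (ℝ × ℝ))) =
      (Prod.mk x ⁻¹' K) + Icc 0 h := by
    intro x
    ext y
    simp only [mem_preimage, mem_add, Prod.exists, mem_prod, mem_singleton_iff, Prod.mk_add_mk,
      Prod.mk.injEq]
    constructor
    · rintro ⟨a, b, hab, c, e, ⟨rfl, he⟩, h1, h2⟩
      rw [add_zero] at h1
      subst h1
      exact ⟨b, hab, e, he, h2⟩
    · rintro ⟨b, hab, e, he, h2⟩
      exact ⟨x, b, hab, 0, e, ⟨rfl, he⟩, add_zero x, h2⟩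
  rw [Measure.volume_eq_prod, Measure.prod_apply hcomp.measurableSet,
    Measure.prod_apply hK.measurableSet]
  have hle : ∀ x : ℝ, volume (Prod.mk x ⁻¹' (K + ({0} ×ˢ Icc 0 h : Set (ℝ × ℝ)))) ≤
      volume (Prod.mk x ⁻¹' K) + (Icc 0 W).indicator (fun _ => ENNReal.ofReal h) x := by
    intro x
    rw [hsec]
    by_cases hx : x ∈ Icc 0 W
    · rw [indicator_of_mem hx]
      refine one_dim ?_ ?_ hh
      · have : Prod.mk x ⁻¹' K = Prod.snd '' (K ∩ Prod.fst ⁻¹' {x}) := by
          ext y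
          simp
        rw [this]
        exact (hK.inter_right (isClosed_singleton.preimage continuous_fst)).image continuous_snd
      · intro y hy z hz s t hs ht hst
        have := hc hy hz hs ht hst
        simp only [mem_preimage]
        convert this using 1
        ext
        · simp [← add_mul, hst]
        · simp
    · have : Prod.mk x ⁻¹' K = ∅ := by
        ext y
        simp only [mem_preimage, mem_empty_iff_false, iff_false]
        exact fun hy => hx (hW _ hy)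
      rw [this]
      simp
  refine (lintegral_mono hle).trans ?_
  rw [lintegral_add_right _ (measurable_const.indicator measurableSet_Icc),
    lintegral_indicator measurableSet_Icc, setLIntegral_const, Real.volume_Icc, sub_zero]

lemma horiz {K : Set (ℝ × ℝ)} (hK : IsCompact K) (hc : Convex ℝ K) {h W : ℝ} (hh : 0 ≤ h)
    (hW : ∀ p ∈ K, p.2 ∈ Icc 0 W) :
    volume (K + (Icc 0 h ×ˢ {0} : Set (ℝ × ℝ))) ≤
      volume K + ENNReal.ofReal h * ENNReal.ofReal W := by
  have hcomp : IsCompact (K + (Icc 0 h ×ˢ {0} : Set (ℝ × ℝ))) :=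
    hK.add (isCompact_Icc.prod isCompact_singleton)
  have hsec : ∀ y : ℝ, (fun x => (x, y)) ⁻¹' (K + (Icc 0 h ×ˢ {0} : Set (ℝ × ℝ))) =
      ((fun x => (x, y)) ⁻¹' K) + Icc 0 h := by
    intro y
    ext x
    simp only [mem_preimage, mem_add, Prod.exists, mem_prod, mem_singleton_iff, Prod.mk_add_mk,
      Prod.mk.injEq]
    constructor
    · rintro ⟨a, b, hab, c, e, ⟨he, rfl⟩, h1, h2⟩
      rw [add_zero] at h2
      subst h2
      exact ⟨a, hab, c, he, h1⟩
    · rintro ⟨a, hab, c, he, h1⟩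
      exact ⟨a, y, hab, c, 0, ⟨he, rfl⟩, h1, add_zero y⟩
  rw [Measure.volume_eq_prod, Measure.prod_apply_symm hcomp.measurableSet,
    Measure.prod_apply_symm hK.measurableSet]
  have hle : ∀ y : ℝ, volume ((fun x => (x, y)) ⁻¹' (K + (Icc 0 h ×ˢ {0} : Set (ℝ × ℝ)))) ≤
      volume ((fun x => (x, y)) ⁻¹' K) + (Icc 0 W).indicator (fun _ => ENNReal.ofReal h) y := by
    intro y
    rw [hsec]
    by_cases hy : y ∈ Icc 0 W
    · rw [indicator_of_mem hy]
      refine one_dim ?_ ?_ hh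
      · have : (fun x => (x, y)) ⁻¹' K = Prod.fst '' (K ∩ Prod.snd ⁻¹' {y}) := by
          ext x
          simp
        rw [this]
        exact (hK.inter_right (isClosed_singleton.preimage continuous_snd)).image continuous_fst
      · intro u hu z hz s t hs ht hst
        have := hc hu hz hs ht hst
        simp only [mem_preimage]
        convert this using 1
        ext
        · simp
        · simp [← add_mul, hst]
    · have : (fun x => (x, y)) ⁻¹' K = ∅ := by
        ext x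
        simp only [mem_preimage, mem_empty_iff_false, iff_false]
        exact fun hx => hy (hW _ hx)
      rw [this]
      simp
  refine (lintegral_mono hle).trans ?_
  rw [lintegral_add_right _ (measurable_const.indicator measurableSet_Icc),
    lintegral_indicator measurableSet_Icc, setLIntegral_const, Real.volume_Icc, sub_zero]

/-- the grid point with indices `u` and spacing `h` -/
noncomputable def φ (h : ℝ) (u : ℕ × ℕ) : ℝ × ℝ := (u.1 * h, u.2 * h)

lemma φ_inj {h : ℝ} (hh : 0 < h) : Function.Injective (φ h) := by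
  rintro ⟨a, b⟩ ⟨c, d⟩ hab
  simp only [φ, Prod.mk.injEq] at hab
  have h1 := mul_right_cancel₀ hh.ne' hab.1
  have h2 := mul_right_cancel₀ hh.ne' hab.2
  rw [Nat.cast_inj] at h1 h2
  rw [h1, h2]

/-- the cell of the grid point -/
def cell (h : ℝ) (u : ℕ × ℕ) : Set (ℝ × ℝ) :=
  Ico (u.1 * h) (u.1 * h + h) ×ˢ Ico (u.2 * h) (u.2 * h + h)

lemma idx {h x : ℝ} (hh : 0 < h) {a b : ℕ} (ha : x ∈ Ico (a * h) (a * h + h))
    (hb : x ∈ Ico (b * h) (b * h + h)) : a = b := by
  simp only [mem_Ico] at ha hb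
  by_contra hne
  rcases lt_or_gt_of_ne hne with h1 | h1
  · have : ((a : ℝ) + 1) ≤ b := by exact_mod_cast h1
    nlinarith
  · have : ((b : ℝ) + 1) ≤ a := by exact_mod_cast h1
    nlinarith

lemma grid_area {N : ℕ} {h : ℝ} (hh : 0 < h) (hN : (N : ℝ) * h = 1) (U : Finset (ℕ × ℕ))
    (hU : ∀ u ∈ U, u.1 ≤ N ∧ u.2 ≤ N) :
    (U.card : ℝ≥0∞) * (ENNReal.ofReal h * ENNReal.ofReal h) ≤
      volume (convexHull ℝ (φ h '' (U : Set (ℕ × ℕ)))) + ENNReal.ofReal h * ENNReal.ofReal 1 +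
        ENNReal.ofReal h * ENNReal.ofReal (1 + h) := by
  set K := convexHull ℝ (φ h '' (U : Set (ℕ × ℕ))) with hK
  have hKc : IsCompact K := (U.finite_toSet.image _).isCompact_convexHull ℝ
  have hKconv : Convex ℝ K := convex_convexHull ℝ _
  have hKsub : K ⊆ Icc 0 1 ×ˢ Icc 0 1 := by
    refine convexHull_min ?_ ((convex_Icc 0 1).prod (convex_Icc 0 1))
    rintro _ ⟨u, hu, rfl⟩
    obtain ⟨h1, h2⟩ := hU u hu
    have h1' : (u.1 : ℝ) ≤ N := by exact_mod_cast h1
    have h2' : (u.2 : ℝ) ≤ N := by exact_mod_cast h2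
    simp only [φ, mem_prod, mem_Icc]
    refine ⟨⟨by positivity, ?_⟩, ⟨by positivity, ?_⟩⟩
    · nlinarith
    · nlinarith
  set K1 := K + ({0} ×ˢ Icc 0 h : Set (ℝ × ℝ)) with hK1
  have hK1c : IsCompact K1 := hKc.add (isCompact_singleton.prod isCompact_Icc)
  have hK1conv : Convex ℝ K1 := hKconv.add ((convex_singleton 0).prod (convex_Icc 0 h))
  have e1 := vert hKc hKconv hh.le (W := 1) fun p hp => (hKsub hp).1
  have e2 := horiz hK1c hK1conv hh.le (W := 1 + h) (by
    rintro _ ⟨p, hp, q, hq, rfl⟩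
    have h1 := (hKsub hp).2
    have h2 := hq.2
    simp only [mem_Icc, Prod.snd_add] at h1 h2 ⊢
    constructor <;> linarith)
  have e3 : (⋃ u ∈ U, cell h u) ⊆ K1 + (Icc 0 h ×ˢ {0} : Set (ℝ × ℝ)) := by
    intro p hp
    simp only [mem_iUnion] at hp
    obtain ⟨u, hu, hp⟩ := hp
    simp only [cell, mem_prod, mem_Ico] at hp
    refine ⟨(u.1 * h, p.2), ⟨φ h u, subset_convexHull ℝ _ ⟨u, hu, rfl⟩, (0, p.2 - u.2 * h),
      ⟨rfl, ?_⟩, ?_⟩, (p.1 - u.1 * h, 0), ⟨?_, rfl⟩, ?_⟩
    · simp only [mem_Icc]; constructor <;> linarith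
    · ext <;> simp [φ]
    · simp only [mem_Icc]; constructor <;> linarith
    · ext <;> simp
  have e4 : volume (⋃ u ∈ U, cell h u) =
      (U.card : ℝ≥0∞) * (ENNReal.ofReal h * ENNReal.ofReal h) := by
    rw [measure_biUnion_finset]
    · have : ∀ u ∈ U, volume (cell h u) = ENNReal.ofReal h * ENNReal.ofReal h := by
        intro u _
        rw [cell, Measure.volume_eq_prod, Measure.prod_prod, Real.volume_Ico, Real.volume_Ico]
        simp
      rw [Finset.sum_congr rfl this, Finset.sum_const, nsmul_eq_mul]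
    · intro u _ v _ huv
      rw [Function.onFun, Set.disjoint_left]
      rintro p ⟨hp1, hp2⟩ ⟨hq1, hq2⟩
      exact huv (Prod.ext (idx hh hp1 hq1) (idx hh hp2 hq2))
    · intro u _
      exact measurableSet_Ico.prod measurableSet_Ico
  calc (U.card : ℝ≥0∞) * (ENNReal.ofReal h * ENNReal.ofReal h)
      = volume (⋃ u ∈ U, cell h u) := e4.symm
    _ ≤ volume (K1 + (Icc 0 h ×ˢ {0} : Set (ℝ × ℝ))) := measure_mono e3
    _ ≤ volume K1 + ENNReal.ofReal h * ENNReal.ofReal (1 + h) := e2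
    _ ≤ _ := by gcongr

lemma grid_area_real {N : ℕ} {h : ℝ} (hh : 0 < h) (hN : (N : ℝ) * h = 1)
    (U : Finset (ℕ × ℕ)) (hU : ∀ u ∈ U, u.1 ≤ N ∧ u.2 ≤ N) :
    ENNReal.ofReal (U.card * h ^ 2 - (2 * h + h ^ 2)) ≤
      volume (convexHull ℝ (φ h '' (U : Set (ℕ × ℕ)))) := by
  have h1 := grid_area hh hN U hU
  rw [ENNReal.ofReal_sub _ (by positivity), tsub_le_iff_right]
  have e1 : ENNReal.ofReal (U.card * h ^ 2) =
      (U.card : ℝ≥0∞) * (ENNReal.ofReal h * ENNReal.ofReal h) := by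
    rw [ENNReal.ofReal_mul (by positivity), ENNReal.ofReal_natCast, sq,
      ENNReal.ofReal_mul hh.le]
  have e2 : ENNReal.ofReal (2 * h + h ^ 2) =
      ENNReal.ofReal h * ENNReal.ofReal 1 + ENNReal.ofReal h * ENNReal.ofReal (1 + h) := by
    rw [← ENNReal.ofReal_mul hh.le, ← ENNReal.ofReal_mul hh.le,
      ← ENNReal.ofReal_add (by positivity) (by positivity)]
    congr 1
    ring
  rw [e1, e2, ← add_assoc]
  exact h1

lemma arith {a N k : ℝ} (ha : 3 ≤ a) (hN : 24 * a ≤ N) (hk : (N + 1) ^ 2 ≤ a * (k - 1)) :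
    1 / (2 * (a - 1)) < (k - 2 * (N + 1)) * (1 / N) ^ 2 - (2 * (1 / N) + (1 / N) ^ 2) := by
  have hNpos : 0 < N := by linarith
  have e : (k - 2 * (N + 1)) * (1 / N) ^ 2 - (2 * (1 / N) + (1 / N) ^ 2) =
      (k - 4 * N - 3) / N ^ 2 := by
    field_simp
    ring
  rw [e, div_lt_div_iff₀ (by linarith) (by positivity)]
  have h1 : (a - 1) / 2 * (24 * a) ≤ (a - 2) * N :=
    mul_le_mul (by linarith) hN (by linarith) (by linarith)
  have h2 : (a - 1) / 2 * (24 * a) * N ≤ (a - 2) * N * N :=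
    mul_le_mul_of_nonneg_right h1 hNpos.le
  have h3 : 2 * (a - 1) * (N + 1) ^ 2 ≤ 2 * (a - 1) * (a * (k - 1)) :=
    mul_le_mul_of_nonneg_left hk (by linarith)
  have h4 : 0 < a * (a - 1) * (N - 1) := by
    apply mul_pos (mul_pos (by linarith) (by linarith)) (by linarith)
  have h5 : 0 < (a - 1) * (2 * N + 1) := mul_pos (by linarith) (by linarith)
  have h6 : a * (1 * N ^ 2) < a * ((k - 4 * N - 3) * (2 * (a - 1))) := by
    nlinarith
  exact lt_of_mul_lt_mul_left h6 (by linarith)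

/-- **The conjectured value of `Δ'_k(α(k-1))` is false.** For every `α ≥ 3` and every
`k > 1000 α` (so that `α ≤ k - 1`) one has `Δ'_k(α(k-1)) > 1 / (2(α-1))`. -/
theorem result (α k : ℕ) (hα : 3 ≤ α) (hk : 1000 * α < k) :
    ENNReal.ofReal (1 / (2 * ((α : ℝ) - 1))) < Delta k (α * (k - 1)) := by
  classical
  set n := α * (k - 1) with hn
  set m := Nat.sqrt n with hm
  have hm1 : m * m ≤ n := Nat.sqrt_le n
  have hm2 : n < (m + 1) * (m + 1) := Nat.lt_succ_sqrt n
  obtain ⟨k', rfl⟩ : ∃ k', k = k' + 1 := ⟨k - 1, by omega⟩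
  simp only [Nat.add_sub_cancel] at hn
  have hmα : 24 * α + 1 ≤ m := by
    by_contra h
    have h1 : m + 1 ≤ 24 * α + 1 := by omega
    have h2 : (m + 1) * (m + 1) ≤ (24 * α + 1) * (24 * α + 1) := Nat.mul_le_mul h1 h1
    have h3 : α * (1000 * α) ≤ α * k' := Nat.mul_le_mul_left α (by omega)
    nlinarith
  obtain ⟨N, hNm⟩ : ∃ N, m = N + 1 := ⟨m - 1, by omega⟩
  have hNα : 24 * α ≤ N := by omega
  have hNpos : 0 < (N : ℝ) := by
    have : 0 < N := by omega
    exact_mod_cast this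
  set h : ℝ := 1 / N with hh
  have hhpos : 0 < h := by positivity
  have hNh : (N : ℝ) * h = 1 := by rw [hh]; field_simp
  -- the grid
  set I : Finset (ℕ × ℕ) := Finset.range (N + 1) ×ˢ Finset.range (N + 1) with hI
  have hIcard : I.card = m * m := by rw [hI, Finset.card_product, Finset.card_range, hNm]
  set G : Finset (ℝ × ℝ) := I.image (φ h) with hG
  have hGcard : G.card = m * m := by
    rw [hG, Finset.card_image_of_injective _ (φ_inj hhpos), hIcard]
  have hGsub : (G : Set (ℝ × ℝ)) ⊆ Icc 0 1 ×ˢ Icc 0 1 := by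
    intro p hp
    rw [Finset.mem_coe, hG, Finset.mem_image] at hp
    obtain ⟨u, hu, rfl⟩ := hp
    rw [hI, Finset.mem_product, Finset.mem_range, Finset.mem_range] at hu
    have h1' : (u.1 : ℝ) ≤ N := by exact_mod_cast Nat.lt_succ_iff.1 hu.1
    have h2' : (u.2 : ℝ) ≤ N := by exact_mod_cast Nat.lt_succ_iff.1 hu.2
    simp only [φ, mem_prod, mem_Icc]
    refine ⟨⟨by positivity, ?_⟩, ⟨by positivity, ?_⟩⟩
    · nlinarith
    · nlinarith
  have hinf : (Icc (0 : ℝ) 1 ×ˢ Icc (0 : ℝ) 1).Infinite :=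
    (Icc_infinite one_pos).prod_left ⟨0, by simp⟩
  obtain ⟨P', hGP', hP'sub, hP'card⟩ := hinf.exists_superset_ncard_eq hGsub G.finite_toSet
    (k := n) (by rw [Set.ncard_coe_finset, hGcard]; exact hm1)
  have hP'fin : P'.Finite := by
    apply Set.finite_of_ncard_pos
    rw [hP'card]
    nlinarith
  obtain ⟨P, rfl⟩ : ∃ P : Finset (ℝ × ℝ), (P : Set (ℝ × ℝ)) = P' := ⟨hP'fin.toFinset, by simp⟩
  rw [Set.ncard_coe_finset] at hP'card
  have hGP : G ⊆ P := by exact_mod_cast hGP'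
  -- the lower bound
  have hDelta : minHull (k' + 1) P ≤ Delta (k' + 1) n := by
    unfold Delta
    refine le_iSup_of_le 1 (le_iSup_of_le P (le_iSup_of_le ?_ le_rfl))
    refine ⟨one_pos, le_rfl, ?_, hP'card⟩
    rw [rect, div_one]
    exact hP'sub
  refine lt_of_lt_of_le ?_ hDelta
  have hα' : (3 : ℝ) ≤ α := by exact_mod_cast hα
  have harith := arith (a := (α : ℝ)) (N := N) (k := (k' : ℝ) + 1) hα' (by exact_mod_cast hNα) (by
    have : ((m * m : ℕ) : ℝ) ≤ ((α * k' : ℕ) : ℝ) := by exact_mod_cast (hn ▸ hm1)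
    rw [hNm] at this
    push_cast at this
    nlinarith)
  set c : ℝ := ((k' : ℝ) + 1 - 2 * (N + 1)) * (1 / N) ^ 2 - (2 * (1 / N) + (1 / N) ^ 2) with hc
  have hpos : 0 < 1 / (2 * ((α : ℝ) - 1)) := by
    apply div_pos one_pos
    linarith
  have hlt : ENNReal.ofReal (1 / (2 * ((α : ℝ) - 1))) < ENNReal.ofReal c :=
    (ENNReal.ofReal_lt_ofReal_iff (hpos.trans harith)).2 harith
  refine lt_of_lt_of_le hlt ?_
  unfold minHull
  refine le_iInf₂ fun T hT => ?_
  rw [Finset.mem_powersetCard] at hT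
  obtain ⟨hTP, hTcard⟩ := hT
  set U : Finset (ℕ × ℕ) := I.filter fun u => φ h u ∈ T with hU
  have hUimg : U.image (φ h) = T ∩ G := by
    ext p
    simp only [hU, hG, Finset.mem_image, Finset.mem_filter, Finset.mem_inter]
    constructor
    · rintro ⟨u, ⟨hu1, hu2⟩, rfl⟩
      exact ⟨hu2, u, hu1, rfl⟩
    · rintro ⟨h1, u, hu, rfl⟩
      exact ⟨u, ⟨hu, h1⟩, rfl⟩
  have hUcard : U.card = (T ∩ G).card := by
    rw [← hUimg, Finset.card_image_of_injective _ (φ_inj hhpos)]
  have hcard2 : k' + 1 ≤ U.card + 2 * m := by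
    have h1 : T.card = (T ∩ G).card + (T \ G).card := by
      rw [Finset.card_inter_add_card_sdiff]
    have h2 : (T \ G).card ≤ (P \ G).card := Finset.card_le_card (Finset.sdiff_subset_sdiff hTP
      (Finset.Subset.refl _))
    have h3 : (P \ G).card = n - m * m := by
      rw [Finset.card_sdiff_of_subset hGP, hP'card, hGcard]
    have h4 : n - m * m ≤ 2 * m := by
      have : (m + 1) * (m + 1) = m * m + 2 * m + 1 := by ring
      omega
    omega
  have hgrid := grid_area_real hhpos hNh U (by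
    intro u hu
    rw [hU, Finset.mem_filter, hI, Finset.mem_product, Finset.mem_range, Finset.mem_range] at hu
    exact ⟨Nat.lt_succ_iff.1 hu.1.1, Nat.lt_succ_iff.1 hu.1.2⟩)
  have hmono : volume (convexHull ℝ (φ h '' (U : Set (ℕ × ℕ)))) ≤
      volume (convexHull ℝ (T : Set (ℝ × ℝ))) := by
    apply measure_mono
    apply convexHull_mono
    rintro _ ⟨u, hu, rfl⟩
    exact (Finset.mem_filter.1 hu).2
  refine le_trans (le_trans ?_ hgrid) hmono
  apply ENNReal.ofReal_le_ofReal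
  rw [hc, hh]
  have h5 : (k' : ℝ) + 1 ≤ U.card + 2 * (N + 1) := by
    have : ((k' + 1 : ℕ) : ℝ) ≤ ((U.card + 2 * m : ℕ) : ℝ) := by exact_mod_cast hcard2
    rw [hNm] at this
    push_cast at this
    exact this
  have h6 : 0 ≤ (1 / (N : ℝ)) ^ 2 := by positivity
  nlinarith

end Pool.Agent.Results.MP_6b0309_co.LargeHulls
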